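import Pool.Agent.Helper18_SSF.AsmA
import Pool.Agent.Helper18_CMG.Asm
import Pool.Agent.Helper45_SSF.EFF
import Pool.Agent.Helper70_SSF.TDX
import Pool.Agent.Helper66_SSF.CPX
import Pool.Agent.Helper69_SSF.FLH
import Pool.Agent.Helper97_SSF.HGS

/-!
# Squad SSF: all rows composed
-/

set_option autoImplicit false

namespace Pool.Agent.SSF.H18

open Pool.Agent.LSG Pool.Agent.LPR Pool.Agent.SSF

/-- infinite metrizable spaces with a transitive action of a compact group -/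
theorem hgs_ : HgsStmt :=
  Pool.Agent.SSF.H97.hgs Pool.Agent.SSF.H45.eff Pool.Agent.SSF.H70.tdx
    (Pool.Agent.SSF.H66.cpx Pool.Agent.CMG.H27.bro Pool.Agent.LPR.H18.cpe_
      Pool.Agent.LPR.H18.bri_)
    Pool.Agent.SSF.H69.flh Pool.Agent.CMG.H18.ncg_ fsm_ Pool.Agent.LPR.H18.stl_

end Pool.Agent.SSF.H18
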