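import Pool.Agent.Helper18_SSF.FSM
import Pool.Agent.Helper49_SSF.HAM
import Pool.Agent.Helper70_SSF.BAM
import Pool.Agent.Helper63_SSF.PAM
import Pool.Agent.Helper10_SSF.SLM
import Pool.Agent.Helper11_SSF.EXM
import Pool.Agent.Helper42_SSF.GMC
import Pool.Agent.Helper27_SSF.UNM
import Pool.Agent.Helper52_SSF.IMM
import Pool.Agent.Helper56_SSF.PRM
import Pool.Agent.Helper30_SSF.QRM
import Pool.Agent.Helper4_SSF.RLM
import Pool.Agent.Helper1_SSF.LCM
import Pool.Agent.Helper49_SSF.LSM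
import Pool.Agent.Helper76_SSF.UIM

/-!
# Squad SSF: part A composed
-/

set_option autoImplicit false

namespace Pool.Agent.SSF.H18

open Pool.Agent.LSG Pool.Agent.LPR Pool.Agent.SSF

theorem ham_ : HamStmt := Pool.Agent.SSF.H49.ham Pool.Agent.LPR.H59.hat

theorem rlm_ : RlmStmt :=
  Pool.Agent.SSF.H4.rlm ham_ (Pool.Agent.SSF.H63.pam ham_ Pool.Agent.SSF.H70.bam)
    Pool.Agent.SSF.H10.slm Pool.Agent.SSF.H11.exm Pool.Agent.SSF.H42.gmc Pool.Agent.SSF.H27.unm
    (Pool.Agent.SSF.H52.imm Pool.Agent.SSF.H42.gmc Pool.Agent.SSF.H27.unm)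
    Pool.Agent.SSF.H56.prm
    (Pool.Agent.SSF.H30.qrm Pool.Agent.SSF.H42.gmc Pool.Agent.SSF.H27.unm)

theorem lsm_ : LsmStmt :=
  Pool.Agent.SSF.H49.lsm (Pool.Agent.LPR.H18.lgl_ Pool.Agent.LPR.H69.dju) rlm_
    Pool.Agent.SSF.H1.lcm

/-- local products with a self-similar compact factor, and spaces all points of which are moved by
flows -/
theorem fsm_ : FsmStmt := fsm lsm_ Pool.Agent.SSF.H76.uim

end Pool.Agent.SSF.H18
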