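import Pool.Agent.SSF.StmtsC
import Pool.Agent.Helper18_LPR.Asm

set_option autoImplicit false

open Set Topology

namespace Pool.Agent.SSF.H18

open Pool.Agent.LSG Pool.Agent.LPR Pool.Agent.SSF

/-- row HFC -/
theorem hfc (hHls : HlsStmt) (hHlf : HlfStmt) : HfcStmt := by
  intro X _ _ h
  obtain ⟨I, Y, hc, hlf, hcov, hL⟩ := h
  have hX : HS X := hHlf X I Y hc hlf hcov (fun i => hHls ↥(Y i) (hL i))
  have hS : SStable X := Pool.Agent.LPR.H18.stb_ X (hX Set.univ isOpen_univ)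
  exact ⟨Pool.Agent.LPR.H18.stl_ X hS, hS⟩

end Pool.Agent.SSF.H18
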