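import Pool.Agent.Helper18_SSF.Asm
import Pool.Agent.Helper18_SSF.HFC
import Pool.Agent.Helper42_SSF.HGL
import Pool.Agent.Helper27_SSF.HLS
import Pool.Agent.Helper43_SSF.HHO
import Pool.Agent.Helper72_SSF.HFS
import Pool.Agent.Helper21_SSF.HSG
import Pool.Agent.Helper47_SSF.HU2
import Pool.Agent.Helper96_SSF.HUF
import Pool.Agent.Helper25_SSF.HLF

/-!
# Squad SSF: part C composed
-/

set_option autoImplicit false

namespace Pool.Agent.SSF.H18

open Pool.Agent.LSG Pool.Agent.LPR Pool.Agent.SSF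

theorem hgl_ : HglStmt :=
  Pool.Agent.SSF.H42.hgl Pool.Agent.LPR.H18.uni_ Pool.Agent.LPR.H69.dju
    (Pool.Agent.LPR.H5.mic Pool.Agent.LPR.H18.sto_)

theorem hls_ : HlsStmt := Pool.Agent.SSF.H27.hls hgl_ rlm_ Pool.Agent.SSF.H1.lcm

theorem hu2_ : Hu2Stmt :=
  Pool.Agent.SSF.H47.hu2 (Pool.Agent.SSF.H72.hfo Pool.Agent.LPR.H18.dug_)
    (Pool.Agent.SSF.H21.hsg Pool.Agent.LPR.H18.dug_)

theorem hlf_ : HlfStmt :=
  Pool.Agent.SSF.H25.hlf hgl_ (Pool.Agent.SSF.H96.huf Pool.Agent.SSF.H43.hho hu2_)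
    Pool.Agent.SSF.H43.hho Pool.Agent.SSF.H1.lcm

/-- locally finite unions of closed local products -/
theorem hfc_ : HfcStmt := hfc hls_ hlf_

end Pool.Agent.SSF.H18
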