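import Pool.Agent.SSF.Stmts
import Pool.Agent.Helper18_LPR.Asm

set_option autoImplicit false

open Set Topology

namespace Pool.Agent.SSF.H18

open Pool.Agent.LSG Pool.Agent.LPR Pool.Agent.SSF

/-- row FSM -/
theorem fsm (h1 : LsmStmt) (h2 : UimStmt) : FsmStmt := by
  intro X _ _ h
  have hl : LocSim X := by
    rcases h with h | h
    · exact h
    · intro x
      obtain ⟨φ, hφ, h0, hadd, hx⟩ := h x
      obtain ⟨N, hN, S, hS⟩ := Pool.Agent.LPR.H18.flo_ X φ hφ h0 hadd x hx
      exact ⟨N, hN, ↥S, ↥unitInterval, inferInstance, inferInstance, inferInstance,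
        inferInstance, h2.2, h2.1, hS⟩
  have hS : SStable X := Pool.Agent.LPR.H18.stb_ X (h1 X hl)
  exact ⟨Pool.Agent.LPR.H18.stl_ X hS, hS⟩

end Pool.Agent.SSF.H18
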